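import Mathlib

namespace Pool.Agent.Results.MP_c0f1e3_an.NoRays

open Filter Topology RCLike

theorem dns (τ η : ℝ) (hη : 0 < η) : ∃ m n : ℕ, |m - n * √2 - τ| < η := by
  have s := Real.mul_self_sqrt zero_le_two
  have s1 : 1 < √2 := by nlinarith [Real.sqrt_nonneg 2]
  have s2 : 0 < 3 - 2 * √2 := by nlinarith
  have a : ∀ k : ℕ, ∃ m n : ℕ, (3 - 2 * √2) ^ k = m - n * √2 := fun k => by
    induction k with
    | zero => exact ⟨1, 0, by simp⟩
    | succ k ih =>
      obtain ⟨m, n, h⟩ := ih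
      exact ⟨3 * m + 4 * n, 2 * m + 3 * n, by
        rw [pow_succ, h]; push_cast; linear_combination 2 * n * s⟩
  obtain ⟨k, hk⟩ := exists_pow_lt_of_lt_one hη (show 3 - 2 * √2 < 1 by linarith)
  obtain ⟨m, n, h⟩ := a k
  obtain ⟨j, hj⟩ := exists_nat_ge (-τ)
  have p := pow_pos s2 k
  have q : 0 ≤ τ + j * √2 := by nlinarith [(Nat.cast_nonneg j : (0 : ℝ) ≤ j)]
  have b1 := (le_div_iff₀ p).1 (Nat.floor_le (div_nonneg q p.le))
  have b2 := (div_lt_iff₀ p).1 (Nat.lt_floor_add_one ((τ + j * √2) / (3 - 2 * √2) ^ k))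
  refine ⟨⌊(τ + j * √2) / (3 - 2 * √2) ^ k⌋₊ * m, ⌊(τ + j * √2) / (3 - 2 * √2) ^ k⌋₊ * n + j, ?_⟩
  generalize ⌊(τ + j * √2) / (3 - 2 * √2) ^ k⌋₊ = l at *
  push_cast
  rw [h] at b1 b2 hk p
  exact abs_lt.2 ⟨by linarith, by linarith⟩

variable {𝕜 V : Type*} [RCLike 𝕜] [NormedAddCommGroup V] [NormedSpace 𝕜 V]

def orbit (G : Finset (V ≃ₗ[𝕜] V)) (v : V) : Set V :=
  {y | ∃ s ∈ Subsemigroup.closure (G : Set (V ≃ₗ[𝕜] V)), s v = y}

theorem result [FiniteDimensional 𝕜 V] (hV : 2 ≤ Module.finrank 𝕜 V) (m : ℕ) (w : Fin m → V)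
    (hw : ∀ i, w i ≠ 0) : ∃ G : Finset (V ≃ₗ[𝕜] V), (∀ a ∈ G, ∀ b ∈ G, Commute a b) ∧
      (∃ v, ∃ D > 0, ∀ i, ∀ t : ℝ, 0 < t → ∃ y ∈ orbit G v, ‖y - (t : 𝕜) • w i‖ < D) ∧
      ∀ v, interior (closure (orbit G v)) = ∅ := by
  classical
  have : Nontrivial V := Module.nontrivial_of_finrank_pos (R := 𝕜) (by omega)
  obtain ⟨v1, h1⟩ := exists_ne (0 : V)
  obtain ⟨φ, hφ⟩ := Module.exists_dual_forall_apply_ne_zero (K := 𝕜)
    (fun i : Option (Fin m) => i.elim v1 w) fun i => by cases i <;> simp [h1, hw]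
  have hφ' : ∀ i, φ (w i) ≠ 0 := fun i => hφ (some i)
  obtain ⟨v0, h0⟩ : ∃ v0, φ v0 = 1 := ⟨(φ v1)⁻¹ • v1, by simpa using inv_mul_cancel₀ (hφ none)⟩
  obtain ⟨u0, u1, u2⟩ : ∃ u0 ∈ LinearMap.ker φ, u0 ≠ 0 := Submodule.exists_mem_ne_zero_of_ne_bot
    fun c => by
      have := LinearMap.finrank_le_finrank_of_injective (LinearMap.ker_eq_bot.1 c)
      rw [Module.finrank_self] at this
      omega
  replace u1 : φ u0 = 0 := u1
  obtain ⟨ψ, hψ⟩ := Module.Projective.exists_dual_eq_one 𝕜 u2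
  obtain ⟨M, hM⟩ := (Set.finite_range fun i => -re (ψ ((φ (w i))⁻¹ • w i - v0))).bddAbove
  let v := v0 - ((M + 1 : ℝ) : 𝕜) • u0
  have v2 : φ v = 1 := by simp [v, h0, u1]
  let u (i : Fin m) : V := (φ (w i))⁻¹ • w i - v
  have u3 : ∀ i, φ (u i) = 0 := fun i => by
    simp only [u, map_sub, map_smul, v2, smul_eq_mul, inv_mul_cancel₀ (hφ' i), sub_self]
  have u4 : ∀ i, 1 ≤ re (ψ (u i)) := fun i => by
    have := hM ⟨i, rfl⟩
    simp only [u, v, map_sub, map_smul ψ _ u0, hψ, smul_eq_mul, mul_one, ofReal_re] at this ⊢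
    linarith
  have mk : ∀ (c : 𝕜) (z : V), c ≠ 0 → φ z = 0 →
      ∃ s : V ≃ₗ[𝕜] V, ∀ x, s x = c • (x + φ x • z) := fun c z hc hz =>
    ⟨.ofLinearMap (c • (.id + φ.smulRight z)) (c⁻¹ • (.id - φ.smulRight z))
      (by ext x; simp [hz, smul_smul, hc, smul_sub])
      (by ext x; simp [hz, smul_smul, hc, smul_sub]), fun _ => rfl⟩
  choose D hD using fun i => mk _ _ (hφ' i) (u3 i)
  obtain ⟨a, ha⟩ := mk (Real.exp 1 : ℝ) 0 (ofReal_ne_zero.2 (Real.exp_ne_zero _)) (map_zero φ)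
  obtain ⟨b, hb⟩ := mk (Real.exp (-√2) : ℝ) 0 (ofReal_ne_zero.2 (Real.exp_ne_zero _)) (map_zero φ)
  let G := insert a (insert b (Finset.univ.image D))
  let σ (k : Fin m → ℕ) : ℝ := ∑ i, k i * re (ψ (u i))
  let Q (s : V ≃ₗ[𝕜] V) := ∃ (c : 𝕜) (z : V) (k : Fin m → ℕ), φ z = 0 ∧ re (ψ z) = σ k ∧
    ∀ x, s x = c • (x + φ x • z)
  have Q1 : ∀ s ∈ G, Q s := fun s hs => by
    simp only [G, Finset.mem_insert, Finset.mem_image, Finset.mem_univ, true_and] at hs
    rcases hs with rfl | rfl | ⟨i, rfl⟩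
    · exact ⟨_, 0, 0, map_zero φ, by simp [σ], ha⟩
    · exact ⟨_, 0, 0, map_zero φ, by simp [σ], hb⟩
    · exact ⟨_, u i, Pi.single i 1, u3 i, by simp [σ, Pi.single_apply], hD i⟩
  have Q2 : ∀ s ∈ Subsemigroup.closure (G : Set (V ≃ₗ[𝕜] V)), Q s := fun s hs => by
    induction hs using Subsemigroup.closure_induction with
    | mem s hs => exact Q1 s hs
    | mul s t _ _ h1 h2 =>
      obtain ⟨c, z, k, a1, a2, a3⟩ := h1
      obtain ⟨d, y, l, b1, b2, b3⟩ := h2
      refine ⟨c * d, z + y, k + l, by simp [a1, b1], by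
        simp [σ, a2, b2, add_mul, Finset.sum_add_distrib], fun x => ?_⟩
      rw [LinearEquiv.mul_apply, a3, b3]
      simp only [map_smul, map_add, b1, smul_eq_mul]
      module
  refine ⟨G, fun s hs t ht => ?_, ⟨v, 1, one_pos, fun i t ht => ?_⟩, fun x => ?_⟩
  · obtain ⟨c, z, -, a1, -, a3⟩ := Q1 s hs
    obtain ⟨d, y, -, b1, -, b3⟩ := Q1 t ht
    ext x
    simp only [LinearEquiv.mul_apply, a3, b3, map_smul, map_add, a1, b1, smul_eq_mul]
    module
  · have ct : ContinuousAt (fun r : ℝ => ‖((Real.exp r : ℝ) : 𝕜) • w i - (t : 𝕜) • w i‖)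
      (Real.log t) := by fun_prop
    obtain ⟨η, hη, h⟩ := Metric.eventually_nhds_iff.1
      (ct.eventually (gt_mem_nhds (show _ < (1 : ℝ) by simp [Real.exp_log ht])))
    obtain ⟨p, q, h2⟩ := dns (Real.log t) η hη
    have st : ∀ s ∈ G, ∀ r : ℝ, (∀ x, s x = ((Real.exp r : ℝ) : 𝕜) • (x + φ x • (0 : V))) →
        ∀ ρ : ℝ, ((Real.exp ρ : ℝ) : 𝕜) • w i ∈ orbit G v →
        ∀ n : ℕ, ((Real.exp (ρ + n * r) : ℝ) : 𝕜) • w i ∈ orbit G v := by
      intro s hs r hr ρ hρ n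
      induction n with
      | zero => simpa using hρ
      | succ n ih =>
        obtain ⟨s', a1, a2⟩ := ih
        refine ⟨s * s', mul_mem (Subsemigroup.subset_closure hs) a1, ?_⟩
        rw [LinearEquiv.mul_apply, a2, hr, smul_zero, add_zero, smul_smul, ← ofReal_mul,
          ← Real.exp_add]
        congr 3; push_cast; ring
    refine ⟨_, st b (by simp [G]) _ hb _ (st a (by simp [G]) _ ha 0 ⟨D i,
      Subsemigroup.subset_closure (by simp [G]), ?_⟩ p) q, h ?_⟩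
    · simp [hD, v2, u, smul_smul, mul_inv_cancel₀ (hφ' i)]
    · rw [Real.dist_eq]; convert h2 using 3; ring
  · have cφ := φ.continuous_of_finiteDimensional
    have cψ := ψ.continuous_of_finiteDimensional
    have cl : IsClosed (Set.range σ) := isClosed_of_closure_subset fun r hr => by
      have f : (Set.Iio (r + 1) ∩ Set.range σ).Finite :=
        ((Set.finite_Iic fun _ => ⌈r + 1⌉₊).image σ).subset (by
          rintro _ ⟨c, k, rfl⟩
          refine ⟨k, fun i => Nat.cast_le (α := ℝ).1 (le_trans ?_ (c.le.trans (Nat.le_ceil _))), rfl⟩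
          exact (le_mul_of_one_le_right (Nat.cast_nonneg _) (u4 i)).trans (Finset.single_le_sum
            (fun i _ => mul_nonneg (Nat.cast_nonneg (k i)) (zero_le_one.trans (u4 i)))
            (Finset.mem_univ i)))
      exact (f.isClosed.closure_subset (isOpen_Iio.inter_closure ⟨lt_add_one r, hr⟩)).2
    have key : ∀ y ∈ closure (orbit G x), φ y ≠ 0 →
        re (ψ y / φ y) - re (ψ x / φ x) ∈ Set.range σ := fun y hy y0 => by
      refine cl.mem_of_frequently_of_tendsto (((mem_closure_iff_frequently.1 hy).and_eventually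
        (cφ.continuousAt.eventually_ne y0)).mono ?_) (ContinuousAt.tendsto
          (f := fun y => re (ψ y / φ y) - re (ψ x / φ x)) (by fun_prop (disch := exact y0)))
      rintro _ ⟨⟨s, hs, rfl⟩, c⟩
      obtain ⟨d, z, k, a1, a2, a3⟩ := Q2 s hs
      simp only [a3, map_smul, map_add, a1, smul_eq_mul, mul_zero, add_zero] at c ⊢
      rw [mul_div_mul_left _ _ (left_ne_zero_of_mul c), add_div,
        mul_div_cancel_left₀ _ (right_ne_zero_of_mul c), map_add, a2]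
      exact ⟨k, by ring⟩
    have ln : ∀ (y z : V) (S : Set ℝ), S.Countable → y ∈ interior (closure (orbit G x)) →
        ∃ t ∉ S, y + (t : 𝕜) • z ∈ interior (closure (orbit G x)) := fun y z S hS hy =>
      (hS.dense_compl ℝ).exists_mem_open (isOpen_interior.preimage
        (f := fun t : ℝ => y + (t : 𝕜) • z) (by fun_prop)) ⟨0, show y + ((0 : ℝ) : 𝕜) • z ∈ _ by simpa using hy⟩
    refine Set.eq_empty_of_forall_notMem fun y hy => ?_
    obtain ⟨t, t1, t2⟩ := ln y v0 {-re (φ y)} (Set.countable_singleton _) hy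
    have y0 : φ (y + (t : 𝕜) • v0) ≠ 0 := fun c => t1 (by
      have := congrArg re c
      simp only [map_add, map_smul, h0, smul_eq_mul, mul_one, ofReal_re, map_zero] at this
      exact eq_neg_of_add_eq_zero_right this)
    generalize y + (t : 𝕜) • v0 = z at t2 y0
    obtain ⟨r, r1, r2⟩ := ln z (φ z • u0) (Set.range fun k => σ k + re (ψ x / φ x) - re (ψ z / φ z))
      (Set.countable_range _) t2
    obtain ⟨k, hk⟩ := key _ (interior_subset r2) (by simpa [u1] using y0)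
    refine r1 ⟨k, ?_⟩
    simp only [map_add, map_smul, u1, hψ, smul_eq_mul, mul_zero, add_zero, mul_one, add_div,
      mul_div_cancel_right₀ _ y0, ofReal_re] at hk
    simp only [hk]; ring

end Pool.Agent.Results.MP_c0f1e3_an.NoRays
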